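import Pool.Agent.H82.LW.Gen0

/-!
# GEN1: few shifts without primes, arbitrary sets of integer shifts

Blocks of length `⌊√x⌋` and `gen0`; a block in which some `n + s` changes sign is discarded.
-/

open Finset EG H69PG H82LX

namespace H52GS

open Classical in
/-- the blocks in which `n + s` changes sign -/
theorem Gen_bad (S : Finset ℤ) (N L : ℕ) (hL : 0 < L) :
    ((range N).filter (fun i : ℕ => ¬ ∀ s ∈ S, 0 ≤ s + (i : ℤ) * L ∨ s + (i : ℤ) * L + L ≤ 0)).card ≤ S.card := by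
  have hLz : (0 : ℤ) < L := by exact_mod_cast hL
  have h1 : ((range N).filter (fun i : ℕ => ¬ ∀ s ∈ S, 0 ≤ s + (i : ℤ) * L ∨ s + (i : ℤ) * L + L ≤ 0)) ⊆
      S.biUnion (fun s => (range N).filter (fun i : ℕ => s + (i : ℤ) * L < 0 ∧ 0 < s + (i : ℤ) * L + L)) := by
    intro i hi
    rw [Finset.mem_filter] at hi
    obtain ⟨hi1, hi2⟩ := hi
    push Not at hi2
    obtain ⟨s, hs, h1, h2⟩ := hi2
    rw [Finset.mem_biUnion]
    exact ⟨s, hs, Finset.mem_filter.2 ⟨hi1, h1, h2⟩⟩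
  refine (Finset.card_le_card h1).trans (Finset.card_biUnion_le.trans ?_)
  rw [Finset.card_eq_sum_ones S]
  refine Finset.sum_le_sum fun s _ => ?_
  rw [Finset.card_le_one]
  intro i hi j hj
  rw [Finset.mem_filter] at hi hj
  obtain ⟨-, a1, a2⟩ := hi
  obtain ⟨-, b1, b2⟩ := hj
  by_contra hne
  rcases Nat.lt_or_gt_of_ne hne with h | h
  · have h3 : (i : ℤ) + 1 ≤ j := by exact_mod_cast h
    have h5 := mul_le_mul_of_nonneg_right h3 hLz.le
    linarith
  · have h3 : (j : ℤ) + 1 ≤ i := by exact_mod_cast h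
    have h5 := mul_le_mul_of_nonneg_right h3 hLz.le
    linarith

theorem Gen_ev1 {c x1 : ℝ} (hc : 0 < c) : ∃ x0 : ℝ, ∀ x : ℝ, x0 ≤ x → x1 ≤ x ^ (1 / 2 : ℝ) ∧ 4 ≤ x ∧
    c / 4 * Real.log (Real.log x) * Real.log x ≤ x ^ (1 / 2 : ℝ) / 4 ∧
    4 * Real.log 2 ≤ Real.log (Real.log x) ∧ 1 + x ^ (1 / 2 : ℝ) ≤ x / 2 ∧ 2 * Real.log 2 ≤ Real.log x := by
  have e1 := (tendsto_rpow_atTop (show (0 : ℝ) < 1 / 2 by norm_num)).eventually_ge_atTop (max x1 4)
  have e2 := (isLittleO_log_rpow_atTop (r := 1 / 4) (by norm_num)).bound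
    (show (0 : ℝ) < min 1 (1 / c) by positivity)
  have e3 := (Real.tendsto_log_atTop.comp Real.tendsto_log_atTop).eventually_ge_atTop (4 * Real.log 2)
  have e4 := Real.tendsto_log_atTop.eventually_ge_atTop (4 : ℝ)
  have e5 := Filter.eventually_ge_atTop (4 : ℝ)
  refine Filter.eventually_atTop.1 ?_
  filter_upwards [e1, e2, e3, e4, e5] with x a1 a2 a3 a4 a5
  have hx0 : 0 < x := by linarith
  have hsq : x ^ (1 / 2 : ℝ) * x ^ (1 / 2 : ℝ) = x := by
    rw [← Real.rpow_add hx0]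
    norm_num
  have hq : x ^ (1 / 4 : ℝ) * x ^ (1 / 4 : ℝ) = x ^ (1 / 2 : ℝ) := by
    rw [← Real.rpow_add hx0]
    norm_num
  have h4 : 0 < x ^ (1 / 4 : ℝ) := Real.rpow_pos_of_pos hx0 _
  set y := x ^ (1 / 2 : ℝ)
  set w := x ^ (1 / 4 : ℝ)
  have hy4 : 4 ≤ y := (le_max_right _ _).trans a1
  have hl2 : Real.log 2 ≤ 1 := by
    have := Real.log_two_lt_d9
    linarith
  set H := Real.log x with hH
  rw [Real.norm_eq_abs, Real.norm_eq_abs, abs_of_pos (by linarith : 0 < H), abs_of_pos h4] at a2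
  have b1 : H ≤ w := by
    refine a2.trans ?_
    calc min 1 (1 / c) * w ≤ 1 * w := mul_le_mul_of_nonneg_right (min_le_left _ _) h4.le
      _ = w := one_mul w
  have b2 : c * H ≤ w := by
    have h5 : H ≤ 1 / c * w := a2.trans (mul_le_mul_of_nonneg_right (min_le_right _ _) h4.le)
    have h6 := mul_le_mul_of_nonneg_left h5 hc.le
    have h7 : c * (1 / c * w) = w := by field_simp
    linarith
  have hyy4 := mul_le_mul_of_nonneg_right hy4 (by linarith : 0 ≤ y)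
  refine ⟨(le_max_left _ _).trans a1, a5, ?_, a3, by linarith, by linarith⟩
  have h8 : Real.log H ≤ H := (Real.log_le_sub_one_of_pos (by linarith)).trans (by linarith)
  have h9 : c / 4 * Real.log H * H ≤ c / 4 * H * H := by
    have : c / 4 * Real.log H ≤ c / 4 * H := mul_le_mul_of_nonneg_left h8 (by linarith)
    exact mul_le_mul_of_nonneg_right this (by linarith)
  have h10 : c * H * H ≤ w * w := mul_le_mul b2 b1 (by linarith) h4.le
  rw [hq] at h10
  linarith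

open Classical in
/-- **Few shifts without primes.** -/
theorem gen1 {r A : ℝ} (hr : 0 < r) (hA : 0 < A) :
    ∃ c : ℝ, 0 < c ∧ ∃ C x0 : ℝ, ∀ x : ℝ, x0 ≤ x →
      ∀ lam : ℝ, 1 ≤ lam → lam ≤ c * Real.log (Real.log x) →
      ∀ S : Finset ℤ, (S.card : ℝ) ≤ lam * Real.log x → (∀ s ∈ S, |(s : ℝ)| ≤ x ^ A) →
      x * Real.exp (-Real.exp (C * lam)) ≤ (((Icc 1 ⌊x⌋₊).filter (fun n : ℕ => ∀ k : ℕ, 0 < k → (k : ℤ) - n ∈ S →
        ¬ k.Prime ∧ ∃ p : ℕ, p.Prime ∧ (p : ℝ) ≤ x ^ r ∧ p ∣ k)).card : ℝ) := by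
  obtain ⟨c, hc, C, x1, h⟩ := gen0 (r := 2 * r) (A := 2 * (A + 2)) (by positivity) (by positivity)
  obtain ⟨x0, hev⟩ := Gen_ev1 (x1 := x1) hc
  refine ⟨c / 4, by positivity, 2 * max C 1 + 2, x0, ?_⟩
  intro x hx lam hlam hlamu S hSc hSA
  obtain ⟨v1, v2, v3, v4, v5, v6⟩ := hev x hx
  have hx0 : 0 < x := by linarith
  have h1x : 1 ≤ x := by linarith
  obtain ⟨y, hy⟩ : ∃ y : ℝ, y = x ^ (1 / 2 : ℝ) := ⟨_, rfl⟩
  rw [← hy] at v1 v3 v5
  have hyy : y * y = x := by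
    rw [hy, ← Real.rpow_add hx0]
    norm_num
  have hy0 : 0 < y := by rw [hy]; exact Real.rpow_pos_of_pos hx0 _
  have hy2 : 2 ≤ y := by
    by_contra h0
    have h1 := mul_lt_mul'' (not_le.1 h0) (not_le.1 h0) hy0.le hy0.le
    linarith
  have hly : Real.log y = Real.log x / 2 := by
    rw [hy, Real.log_rpow hx0]
    ring
  have hyr : y ^ (2 * r) = x ^ r := by
    rw [hy, ← Real.rpow_mul hx0.le]
    congr 1
    ring
  have hyA : y ^ (2 * (A + 2)) = x ^ (A + 2) := by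
    rw [hy, ← Real.rpow_mul hx0.le]
    congr 1
    ring
  have hlx : 0 < Real.log x := by
    have : 0 < Real.log 2 := Real.log_pos (by norm_num)
    linarith
  obtain ⟨L, hL⟩ : ∃ L : ℕ, L = ⌊y⌋₊ := ⟨_, rfl⟩
  have hLpos : 0 < L := by rw [hL]; exact Nat.floor_pos.2 (by linarith)
  have hLy : (L : ℝ) ≤ y := by rw [hL]; exact Nat.floor_le hy0.le
  obtain ⟨N, hN⟩ : ∃ N : ℕ, N = ⌊x⌋₊ / L := ⟨_, rfl⟩
  have hNL : N * L ≤ ⌊x⌋₊ := by rw [hN]; exact Nat.div_mul_le_self _ _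
  have hNL2 : ⌊x⌋₊ < N * L + L := by
    rw [hN]
    have h1 := Nat.lt_div_mul_add hLpos (a := ⌊x⌋₊)
    exact h1
  have hNx : (N : ℝ) * L ≤ x := by
    have h1 : ((N * L : ℕ) : ℝ) ≤ x := (Nat.cast_le.2 hNL).trans (Nat.floor_le hx0.le)
    push_cast at h1
    exact h1
  have hNy : x / 2 ≤ N * y := by
    have h1 : x < ⌊x⌋₊ + 1 := Nat.lt_floor_add_one x
    have h2 : ((⌊x⌋₊ + 1 : ℕ) : ℝ) ≤ ((N * L + L : ℕ) : ℝ) := Nat.cast_le.2 hNL2
    push_cast at h2
    have h3 : (N : ℝ) * L ≤ N * y := mul_le_mul_of_nonneg_left hLy (Nat.cast_nonneg _)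
    linarith
  have hNy2 : y / 2 ≤ N := le_of_mul_le_mul_right (by linarith) hy0
  set Bd : Finset ℕ := (range N).filter (fun i : ℕ => ¬ ∀ s ∈ S, 0 ≤ s + (i : ℤ) * L ∨ s + (i : ℤ) * L + L ≤ 0) with hBd
  set Gd : Finset ℕ := (range N).filter (fun i : ℕ => ∀ s ∈ S, 0 ≤ s + (i : ℤ) * L ∨ s + (i : ℤ) * L + L ≤ 0) with hGd
  have hcardGB : Gd.card + Bd.card = N := by
    rw [hGd, hBd, Finset.card_filter_add_card_filter_not, Finset.card_range]
  have hBc : Bd.card ≤ S.card := Gen_bad S N L hLpos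
  have hScy : (S.card : ℝ) ≤ y / 4 := by
    refine hSc.trans (le_trans ?_ v3)
    exact mul_le_mul_of_nonneg_right hlamu hlx.le
  have hGc : (N : ℝ) / 2 ≤ Gd.card := by
    have h1 : (Gd.card : ℝ) + Bd.card = N := by exact_mod_cast hcardGB
    have h2 : (Bd.card : ℝ) ≤ S.card := by exact_mod_cast hBc
    linarith
  have hlam2 : 2 * lam ≤ c * Real.log (Real.log y) := by
    rw [hly, Real.log_div hlx.ne' (by norm_num)]
    have h1 : Real.log 2 ≤ 1 / 4 * Real.log (Real.log x) := by linarith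
    have h2 : c * (3 / 4 * Real.log (Real.log x)) ≤ c * (Real.log (Real.log x) - Real.log 2) :=
      mul_le_mul_of_nonneg_left (by linarith) hc.le
    have h3 : 0 ≤ c * Real.log (Real.log x) := by
      have : 0 < Real.log 2 := Real.log_pos (by norm_num)
      have : 0 ≤ Real.log (Real.log x) := by linarith
      positivity
    linarith
  have hxA2 : x ^ (A + 2) = x ^ A * x ^ 2 := by
    rw [Real.rpow_add hx0]
    norm_num
  have hxA1 : 1 ≤ x ^ A := Real.one_le_rpow h1x hA.le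
  obtain ⟨P, hP⟩ : ∃ P : ℕ → Finset ℕ, P = fun i : ℕ => (S.filter (fun s => 0 ≤ s + (i : ℤ) * L)).image
    (fun s => (s + (i : ℤ) * L).toNat) := ⟨_, rfl⟩
  have hPc : ∀ i, ((P i).card : ℝ) ≤ 2 * lam * Real.log y := by
    intro i
    rw [hly]
    have h1 : (P i).card ≤ S.card := by
      rw [hP]
      exact Finset.card_image_le.trans (Finset.card_filter_le _ _)
    have h2 : ((P i).card : ℝ) ≤ S.card := by exact_mod_cast h1
    have e : 2 * lam * (Real.log x / 2) = lam * Real.log x := by ring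
    rw [e]
    exact h2.trans hSc
  have hPA : ∀ i ∈ Gd, ∀ k ∈ P i, (k : ℝ) ≤ y ^ (2 * (A + 2)) := by
    intro i hi k hk
    rw [hP] at hk
    obtain ⟨s, hs, hsk⟩ := Finset.mem_image.1 hk
    rw [Finset.mem_filter] at hs
    have h1 : (k : ℤ) = s + (i : ℤ) * L := by
      rw [← hsk]
      exact Int.toNat_of_nonneg hs.2
    have h2 : (k : ℝ) = s + (i : ℝ) * L := by exact_mod_cast h1
    have h3 : (s : ℝ) ≤ x ^ A := (le_abs_self _).trans (hSA s hs.1)
    have h4 : (i : ℝ) ≤ N := by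
      rw [hGd, Finset.mem_filter, Finset.mem_range] at hi
      exact_mod_cast hi.1.le
    have h5 : (i : ℝ) * L ≤ N * L := mul_le_mul_of_nonneg_right h4 (Nat.cast_nonneg _)
    rw [hyA, hxA2, h2]
    have h6 : 4 * (x ^ A * x) ≤ x ^ A * x ^ 2 := by
      have h7 : 0 ≤ x ^ A * x := by positivity
      have e : x ^ A * x ^ 2 = x ^ A * x * x := by ring
      rw [e]
      have h10 := mul_le_mul_of_nonneg_left v2 h7
      linarith
    have h8 : x ≤ x ^ A * x := le_mul_of_one_le_left hx0.le (Real.one_le_rpow h1x hA.le)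
    have h9 : x ^ A ≤ x ^ A * x := le_mul_of_one_le_right (Real.rpow_nonneg hx0.le _) h1x
    linarith
  obtain ⟨F, hF⟩ : ∃ F : ℕ → Finset ℕ, F = fun i => ((Icc 1 ⌊y⌋₊).filter (fun n : ℕ => ∀ k ∈ P i,
        ¬ (n + k).Prime ∧ ∃ p : ℕ, p.Prime ∧ (p : ℝ) ≤ y ^ (2 * r) ∧ p ∣ n + k)) := ⟨_, rfl⟩
  have hFc : ∀ i ∈ Gd, y * Real.exp (-Real.exp (C * (2 * lam))) ≤ ((F i).card : ℝ) := by
    intro i hi
    have := h y v1 (2 * lam) (by linarith) hlam2 (P i) (hPc i) (hPA i hi)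
    rw [hF]
    exact this
  have hmap : (Gd.sigma F).card ≤ ((Icc 1 ⌊x⌋₊).filter (fun n : ℕ => ∀ k : ℕ, 0 < k → (k : ℤ) - n ∈ S →
        ¬ k.Prime ∧ ∃ p : ℕ, p.Prime ∧ (p : ℝ) ≤ x ^ r ∧ p ∣ k)).card := by
    refine Finset.card_le_card_of_injOn (fun q => q.1 * L + q.2) ?_ ?_
    · rintro ⟨i, j⟩ hij
      rw [Finset.mem_coe, Finset.mem_sigma] at hij
      obtain ⟨hi, hj⟩ := hij
      have hi' : i ∈ Gd := hi
      have hj' : j ∈ F i := hj
      rw [hF, Finset.mem_filter, Finset.mem_Icc, ← hL] at hj'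
      obtain ⟨⟨hj1, hj2⟩, hj3⟩ := hj'
      rw [hGd, Finset.mem_filter, Finset.mem_range] at hi'
      obtain ⟨hi1, hi2⟩ := hi'
      show i * L + j ∈ ((Icc 1 ⌊x⌋₊).filter (fun n : ℕ => ∀ k : ℕ, 0 < k → (k : ℤ) - n ∈ S →
        ¬ k.Prime ∧ ∃ p : ℕ, p.Prime ∧ (p : ℝ) ≤ x ^ r ∧ p ∣ k))
      rw [Finset.mem_filter, Finset.mem_Icc]
      have h1 : (i + 1) * L ≤ N * L := Nat.mul_le_mul_right _ hi1
      have h2 : (i + 1) * L = i * L + L := by ring
      refine ⟨⟨by omega, by omega⟩, ?_⟩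
      intro k hk hkS
      push_cast at hkS
      have h3 := hi2 _ hkS
      have hkz : (0 : ℤ) < k := by exact_mod_cast hk
      have hjz : (j : ℤ) ≤ L := by exact_mod_cast hj2
      rcases h3 with h3 | h3
      · -- k = j + (s + i L)
        have h4 : ((k : ℤ) - ((i : ℤ) * L + j) + (i : ℤ) * L).toNat ∈ P i := by
          rw [hP]
          exact Finset.mem_image.2 ⟨_, Finset.mem_filter.2 ⟨hkS, h3⟩, rfl⟩
        have h5 : j + ((k : ℤ) - ((i : ℤ) * L + j) + (i : ℤ) * L).toNat = k := by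
          have e : (k : ℤ) - ((i : ℤ) * L + j) + (i : ℤ) * L = k - j := by ring
          rw [e] at h3 ⊢
          omega
        have h6 := hj3 _ h4
        rw [h5, hyr] at h6
        exact h6
      · exfalso
        linarith
    · rintro ⟨i, j⟩ hij ⟨i', j'⟩ hij' e
      rw [Finset.mem_coe, Finset.mem_sigma] at hij hij'
      have hj : j ∈ F i := hij.2
      have hj' : j' ∈ F i' := hij'.2
      rw [hF, Finset.mem_filter, Finset.mem_Icc, ← hL] at hj hj'
      have e' : i * L + j = i' * L + j' := e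
      have hii : i = i' := by
        by_contra hne
        rcases Nat.lt_or_gt_of_ne hne with hh | hh
        · have h1 : (i + 1) * L ≤ i' * L := Nat.mul_le_mul_right _ hh
          have h2 : (i + 1) * L = i * L + L := by ring
          omega
        · have h1 : (i' + 1) * L ≤ i * L := Nat.mul_le_mul_right _ hh
          have h2 : (i' + 1) * L = i' * L + L := by ring
          omega
      subst hii
      have hjj : j = j' := by omega
      subst hjj
      rfl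
  have hcs : (Gd.card : ℝ) * (y * Real.exp (-Real.exp (C * (2 * lam)))) ≤ ((Gd.sigma F).card : ℝ) := by
    rw [Finset.card_sigma, Nat.cast_sum, ← nsmul_eq_mul]
    exact Finset.card_nsmul_le_sum _ _ _ hFc
  have hmap' : ((Gd.sigma F).card : ℝ) ≤ (((Icc 1 ⌊x⌋₊).filter (fun n : ℕ => ∀ k : ℕ, 0 < k → (k : ℤ) - n ∈ S →
        ¬ k.Prime ∧ ∃ p : ℕ, p.Prime ∧ (p : ℝ) ≤ x ^ r ∧ p ∣ k)).card : ℝ) := by exact_mod_cast hmap
  refine le_trans ?_ (hcs.trans hmap')
  obtain ⟨C1, hC1⟩ : ∃ C1 : ℝ, C1 = max C 1 := ⟨_, rfl⟩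
  have hC11 : 1 ≤ C1 := by rw [hC1]; exact le_max_right _ _
  have hCC1 : C ≤ C1 := by rw [hC1]; exact le_max_left _ _
  rw [← hC1]
  obtain ⟨E, hE⟩ : ∃ E : ℝ, E = Real.exp (C1 * (2 * lam)) := ⟨_, rfl⟩
  have hE1 : 1 ≤ E := by rw [hE]; exact Real.one_le_exp (by positivity)
  have hCE : Real.exp (-E) ≤ Real.exp (-Real.exp (C * (2 * lam))) := by
    apply Real.exp_le_exp.2
    rw [hE]
    have : Real.exp (C * (2 * lam)) ≤ Real.exp (C1 * (2 * lam)) :=
      Real.exp_le_exp.2 (mul_le_mul_of_nonneg_right hCC1 (by linarith))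
    linarith
  have hlow : x / 4 * Real.exp (-E) ≤ (Gd.card : ℝ) * (y * Real.exp (-Real.exp (C * (2 * lam)))) := by
    have h1 : x / 4 ≤ (Gd.card : ℝ) * y := by
      have := mul_le_mul_of_nonneg_right hGc hy0.le
      linarith
    have h2 : (Gd.card : ℝ) * (y * Real.exp (-Real.exp (C * (2 * lam)))) =
        ((Gd.card : ℝ) * y) * Real.exp (-Real.exp (C * (2 * lam))) := by ring
    rw [h2]
    exact mul_le_mul h1 hCE (Real.exp_pos _).le (by positivity)
  refine le_trans ?_ hlow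
  have h1 : Real.exp ((2 * C1 + 2) * lam) = E * Real.exp (2 * lam) := by
    rw [hE, ← Real.exp_add]
    congr 1
    ring
  have h2 : 3 ≤ Real.exp (2 * lam) := by
    have h5 := Real.add_one_le_exp (2 * lam)
    linarith
  have h3 : E + 2 ≤ Real.exp ((2 * C1 + 2) * lam) := by
    rw [h1]
    have h5 := mul_le_mul_of_nonneg_left h2 (zero_le_one.trans hE1)
    linarith
  have h4 : (4 : ℝ) ≤ Real.exp 2 := by
    have h5 : (Real.exp 1) ^ 2 = Real.exp 2 := by rw [← Real.exp_nat_mul]; norm_num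
    rw [← h5]
    have := Real.exp_one_gt_d9
    calc (4 : ℝ) = 2 ^ 2 := by norm_num
      _ ≤ (Real.exp 1) ^ 2 := pow_le_pow_left₀ (by norm_num) (by linarith) 2
  have h7 : Real.exp (-Real.exp ((2 * C1 + 2) * lam)) ≤ Real.exp (-E) / 4 := by
    calc Real.exp (-Real.exp ((2 * C1 + 2) * lam)) ≤ Real.exp (-E + -2) := Real.exp_le_exp.2 (by linarith)
      _ = Real.exp (-E) * (Real.exp 2)⁻¹ := by rw [Real.exp_add, Real.exp_neg 2]
      _ ≤ Real.exp (-E) * (4 : ℝ)⁻¹ := mul_le_mul_of_nonneg_left (inv_anti₀ (by norm_num) h4) (Real.exp_pos _).le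
      _ = Real.exp (-E) / 4 := by ring
  calc x * Real.exp (-Real.exp ((2 * C1 + 2) * lam)) ≤ x * (Real.exp (-E) / 4) := mul_le_mul_of_nonneg_left h7 hx0.le
    _ = x / 4 * Real.exp (-E) := by ring

end H52GS
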