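import Pool.Agent.H69.PG.VVf
import Pool.Agent.H52.GS.Df

/-!
# PARB: small lemmas for `Gen0.lean` (copies, so that the large files are not imported)
-/

open Finset EG H69PG

namespace H82LW

/-- Mertens -/
theorem Fiv_mert : ∃ D : ℝ, 1 ≤ D ∧ ∀ z : ℕ, 2 ≤ z →
    (Nat.totient (primorial z) : ℝ) / (primorial z : ℝ) ≤ D / Real.log z := by
  obtain ⟨D, hD, h⟩ := vv_mu
  refine ⟨D, hD, fun z hz => ?_⟩
  have h1 := h z 2 2 hz le_rfl le_rfl
  have h2 : VV 2 2 1 = 1 := by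
    unfold VV PK
    simp
  rw [h2, mul_one] at h1
  refine h1.trans (le_of_eq ?_)
  have hl : Real.log ((2 : ℕ) : ℝ) ≠ 0 := by
    have : 0 < Real.log ((2 : ℕ) : ℝ) := Real.log_pos (by norm_num)
    exact this.ne'
  have hz0 : Real.log (z : ℝ) ≠ 0 := by
    have : 0 < Real.log (z : ℝ) := Real.log_pos (by exact_mod_cast (by omega : 1 < z))
    exact this.ne'
  field_simp

theorem Fiv_a {a x : ℝ} (ha : 1 ≤ a) (hx : 3 ≤ x) : a + 2 * x ≤ a * x ^ 2 := by
  have h1 : 0 ≤ x ^ 2 - 1 := by nlinarith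
  have h2 := mul_le_mul_of_nonneg_right ha h1
  nlinarith

/-- the parameters, `H = log x` -/
theorem Fiv_par {D c0 C0 : ℝ} (hD : 1 ≤ D) (hc0 : 0 < c0) (hC0 : 1 ≤ C0) (m0 : ℕ) :
    ∃ C2 : ℝ, 1 ≤ C2 ∧ ∀ lam : ℝ, 1 ≤ lam → ∃ m : ℕ, m0 ≤ m ∧ 4 * D * lam ≤ c0 * m ∧ C0 * m ≤ C2 * lam := by
  refine ⟨C0 * (4 * D / c0 + 1 + m0), ?_, ?_⟩
  · have h1 : 0 ≤ 4 * D / c0 := by positivity
    have h2 : (0 : ℝ) ≤ m0 := Nat.cast_nonneg _
    nlinarith
  · intro lam hlam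
    refine ⟨⌈4 * D * lam / c0⌉₊ + m0, by omega, ?_, ?_⟩
    · have h1 := Nat.le_ceil (4 * D * lam / c0)
      push_cast
      have h2 : (0 : ℝ) ≤ m0 := Nat.cast_nonneg _
      have h3 : c0 * (4 * D * lam / c0) = 4 * D * lam := by field_simp
      nlinarith
    · have h1 := Nat.ceil_lt_add_one (show 0 ≤ 4 * D * lam / c0 by positivity)
      push_cast
      have h2 : (0 : ℝ) ≤ m0 := Nat.cast_nonneg _
      have h3 : (⌈4 * D * lam / c0⌉₊ : ℝ) + m0 ≤ (4 * D / c0 + 1 + m0) * lam := by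
        have e : (4 * D / c0 + 1 + m0) * lam = 4 * D * lam / c0 + lam + m0 * lam := by ring
        rw [e]
        nlinarith
      calc C0 * ((⌈4 * D * lam / c0⌉₊ : ℝ) + m0) ≤ C0 * ((4 * D / c0 + 1 + m0) * lam) :=
            mul_le_mul_of_nonneg_left h3 (by linarith)
        _ = _ := by ring

theorem Fiv_ev {r1 C2 : ℝ} (hr1 : 0 < r1) (hC2 : 1 ≤ C2) :
    ∃ x0 : ℝ, ∀ x : ℝ, x0 ≤ x →
      1 ≤ x ∧ 2 + x ^ (1 / 50 : ℝ) + Real.log x ^ 2 ≤ x ∧
      Real.log x / 100 ≤ x ^ r1 ∧ x ^ (1 / 50 : ℝ) ≤ x / 2 ∧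
      x ^ (1 / 2 : ℝ) + 1 ≤ Real.exp (-(Real.log x ^ (1 / 2 : ℝ))) / 8 * x ∧
      80000 ≤ Real.log x ∧ 1 / (2 * C2) * Real.log (Real.log x) ≤ Real.log x / 80000 := by
  have e2 := Filter.eventually_ge_atTop (Real.exp 80000)
  have e3 := (isLittleO_log_rpow_atTop (r := 1 / 4) (by norm_num)).bound
    (show (0 : ℝ) < 1 by norm_num)
  have e4 := (isLittleO_log_rpow_atTop hr1).bound (show (0 : ℝ) < 1 by norm_num)
  have e5 := (tendsto_rpow_atTop (show (0 : ℝ) < 1 / 2 by norm_num)).eventually_ge_atTop 64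
  have e6 := (Real.isLittleO_log_id_atTop.comp_tendsto Real.tendsto_log_atTop).bound
    (show (0 : ℝ) < 1 / 80000 by norm_num)
  refine Filter.eventually_atTop.1 ?_
  filter_upwards [e2, e3, e4, e5, e6] with x a2 a3 a4 a5 a6
  have hx0 : 0 < x := (Real.exp_pos _).trans_le a2
  have hH : 80000 ≤ Real.log x := (Real.le_log_iff_exp_le hx0).2 a2
  have hx1 : 1 ≤ x := by
    rw [← Real.log_nonneg_iff hx0]
    linarith
  set H := Real.log x with hHd
  have hsq : x ^ (1 / 2 : ℝ) * x ^ (1 / 2 : ℝ) = x := by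
    rw [← Real.rpow_add hx0]
    norm_num
  have h50 : x ^ (1 / 50 : ℝ) ≤ x ^ (1 / 2 : ℝ) := Real.rpow_le_rpow_of_exponent_le hx1 (by norm_num)
  have hlog4 : H ≤ x ^ (1 / 4 : ℝ) := by
    have := (le_abs_self H).trans a3
    rwa [one_mul, Real.norm_eq_abs, abs_of_pos (Real.rpow_pos_of_pos hx0 _)] at this
  have hlog2 : H ^ 2 ≤ x ^ (1 / 2 : ℝ) := by
    have e : x ^ (1 / 2 : ℝ) = (x ^ (1 / 4 : ℝ)) ^ 2 := by
      rw [← Real.rpow_natCast, ← Real.rpow_mul hx0.le]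
      norm_num
    rw [e]
    exact pow_le_pow_left₀ (by linarith) hlog4 2
  have a4' : H ≤ x ^ r1 := by
    have := (le_abs_self H).trans a4
    rwa [one_mul, Real.norm_eq_abs, abs_of_pos (Real.rpow_pos_of_pos hx0 r1)] at this
  set y := x ^ (1 / 2 : ℝ) with hy
  have hyx : 64 * y ≤ x := by nlinarith
  refine ⟨hx1, by linarith, by linarith, by linarith, ?_, hH, ?_⟩
  · -- exp(- sqrt H) x ≥ 8 (sqrt x + 1)
    have hs0 : 0 ≤ H := by linarith
    obtain ⟨s, hs⟩ : ∃ s : ℝ, s = H ^ (1 / 2 : ℝ) := ⟨_, rfl⟩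
    have hs1 : 0 ≤ s := by rw [hs]; positivity
    have hss : s * s = H := by
      rw [hs, ← Real.rpow_add (by linarith)]
      norm_num
    have hs4 : 280 ≤ s := by nlinarith
    rw [← hs]
    have hxe : x = Real.exp H := (Real.exp_log hx0).symm
    have hye : y = Real.exp (H / 2) := by
      rw [hy, Real.rpow_def_of_pos hx0]
      congr 1
      rw [← hHd]
      ring
    have h1 : Real.exp (-s) / 8 * x = Real.exp (H - s) / 8 := by
      rw [hxe, div_mul_eq_mul_div, ← Real.exp_add]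
      congr 2
      ring
    rw [h1]
    have h2 : H / 2 + 3 ≤ H - s := by nlinarith
    have h3 : Real.exp (H / 2 + 3) ≤ Real.exp (H - s) := Real.exp_le_exp.2 h2
    rw [Real.exp_add, ← hye] at h3
    have h4 : 16 ≤ Real.exp 3 := by
      have h5 : (Real.exp 1) ^ 3 = Real.exp 3 := by rw [← Real.exp_nat_mul]; norm_num
      rw [← h5]
      have := Real.exp_one_gt_d9
      calc (16 : ℝ) ≤ 2.7 ^ 3 := by norm_num
        _ ≤ (Real.exp 1) ^ 3 := pow_le_pow_left₀ (by norm_num) (by linarith) 3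
    have h6 : y * 16 ≤ y * Real.exp 3 := mul_le_mul_of_nonneg_left h4 (by linarith)
    linarith
  · simp only [Function.comp_apply, id_eq, Real.norm_eq_abs] at a6
    rw [abs_of_pos (show 0 < Real.log x by linarith)] at a6
    have h1 : Real.log H ≤ 1 / 80000 * H := (le_abs_self _).trans a6
    have h2 : 0 ≤ Real.log H := Real.log_nonneg (by linarith)
    have h3 : 1 / (2 * C2) ≤ 1 := by
      rw [div_le_one (by positivity)]
      linarith
    calc 1 / (2 * C2) * Real.log H ≤ 1 * Real.log H := mul_le_mul_of_nonneg_right h3 h2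
      _ ≤ H / 80000 := by linarith

theorem Amp_prim {x : ℝ} (hx : 1 ≤ x) {z : ℕ} (hz : 100 * (z : ℝ) ≤ Real.log x) :
    (primorial z : ℝ) ≤ x ^ (1 / 50 : ℝ) := by
  have hx0 : 0 < x := by linarith
  have h1 : (primorial z : ℝ) ≤ (4 : ℝ) ^ z := by
    exact_mod_cast primorial_le_four_pow _
  have h2 : ((4 : ℝ) ^ z) = Real.exp (Real.log 4 * (z : ℕ)) := by
    rw [← Real.rpow_natCast, Real.rpow_def_of_pos (by norm_num)]
  have h4 : Real.log 4 ≤ 2 := by
    have h5 : (4 : ℝ) = 2 ^ (2 : ℕ) := by norm_num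
    rw [h5, Real.log_pow]
    have := Real.log_two_lt_d9
    push_cast
    linarith
  refine h1.trans ?_
  rw [h2, Real.rpow_def_of_pos hx0]
  refine Real.exp_le_exp.2 ?_
  calc Real.log 4 * (z : ℕ) ≤ 2 * z := mul_le_mul_of_nonneg_right h4 (Nat.cast_nonneg _)
    _ ≤ Real.log x * (1 / 50) := by linarith

theorem Fin_count (Q0 X k : ℕ) :
    ((range Q0).filter (fun b => Nat.Coprime (X + 1 + b + k) Q0)).card = Nat.totient Q0 := by
  rw [← Nat.filter_coprime_Ico_eq_totient Q0 (X + 1 + k), Finset.card_filter, Finset.card_filter,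
    Finset.sum_Ico_eq_sum_range, Nat.add_sub_cancel_left]
  refine Finset.sum_congr rfl fun b _ => ?_
  refine if_congr ?_ rfl rfl
  have e : X + 1 + b + k = X + 1 + k + b := by ring
  rw [e]
  exact Nat.coprime_comm

open Classical in
/-- one residue class -/
theorem Fin_map (Q0 X T : ℕ) (B : Finset ℕ) (G : ℕ → Finset ℕ) (c : ℝ) (hQ : 0 < Q0)
    (hB : B ⊆ range Q0) (hG : ∀ b ∈ B, G b ⊆ range T) (hc : ∀ b ∈ B, c ≤ ((G b).card : ℝ)) :
    (B.card : ℝ) * c ≤ ((((B.sigma G).image (fun p => X + 1 + p.1 + Q0 * p.2))).card : ℝ) := by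
  rw [Finset.card_image_of_injOn]
  · rw [Finset.card_sigma, Nat.cast_sum, ← nsmul_eq_mul]
    exact Finset.card_nsmul_le_sum _ _ _ hc
  · rintro ⟨b, t⟩ h ⟨b', t'⟩ h' e
    simp only [Finset.coe_sigma, Set.mem_sigma_iff, Finset.mem_coe] at h h'
    have hb := Finset.mem_range.1 (hB h.1)
    have hb' := Finset.mem_range.1 (hB h'.1)
    have e' : X + 1 + b + Q0 * t = X + 1 + b' + Q0 * t' := e
    have e2 : b + Q0 * t = b' + Q0 * t' := by omega
    have e3 : b = b' := by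
      have := congrArg (fun n => n % Q0) e2
      simpa [Nat.add_mul_mod_self_left, Nat.mod_eq_of_lt hb, Nat.mod_eq_of_lt hb'] using this
    have e4 : t = t' := by
      rw [e3] at e2
      exact Nat.eq_of_mul_eq_mul_left hQ (Nat.add_left_cancel e2)
    rw [e3, e4]

/-- the product of the differences -/
noncomputable def WW {ι : Type} [Fintype ι] [DecidableEq ι] (c : ι → ℕ) : ℕ :=
  ∏ p ∈ (univ : Finset (ι × ι)).filter (fun p => p.1 ≠ p.2), ((c p.1 : ℤ) - c p.2).natAbs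

theorem WW_pos {ι : Type} [Fintype ι] [DecidableEq ι] {c : ι → ℕ} (hc : Function.Injective c) : 1 ≤ WW c := by
  have h0 : 0 < WW c := by
    unfold WW
    refine Finset.prod_pos (fun p hp => ?_)
    rw [Finset.mem_filter] at hp
    rw [Int.natAbs_pos, sub_ne_zero]
    intro h
    exact hp.2 (hc (by exact_mod_cast h))
  exact h0

theorem WW_dvd {ι : Type} [Fintype ι] [DecidableEq ι] (c : ι → ℕ) {i j : ι} (hij : i ≠ j) {p : ℕ}
    (h : (p : ℤ) ∣ (c i : ℤ) - c j) : p ∣ WW c := by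
  have h1 : p ∣ ((c i : ℤ) - c j).natAbs := Int.natCast_dvd.1 h
  refine h1.trans ?_
  unfold WW
  exact Finset.dvd_prod_of_mem (fun p : ι × ι => ((c p.1 : ℤ) - c p.2).natAbs)
    (Finset.mem_filter.2 ⟨Finset.mem_univ (i, j), hij⟩)

theorem WW_log {ι : Type} [Fintype ι] [DecidableEq ι] {c : ι → ℕ} (hc : Function.Injective c) {Y : ℝ} (hY : 1 ≤ Y)
    (h : ∀ i, (c i : ℝ) ≤ Y) : Real.log (WW c) ≤ (Fintype.card ι : ℝ) ^ 2 * Real.log Y := by
  have hpos : ∀ p ∈ (univ : Finset (ι × ι)).filter (fun p => p.1 ≠ p.2), (0 : ℝ) < (((c p.1 : ℤ) - c p.2).natAbs : ℝ) := by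
    intro p hp
    rw [Finset.mem_filter] at hp
    have : 0 < ((c p.1 : ℤ) - c p.2).natAbs := by
      rw [Int.natAbs_pos, sub_ne_zero]
      intro h
      exact hp.2 (hc (by exact_mod_cast h))
    exact_mod_cast this
  unfold WW
  push_cast
  rw [Real.log_prod (fun p hp => (hpos p hp).ne')]
  have h1 : ∀ p ∈ (univ : Finset (ι × ι)).filter (fun p => p.1 ≠ p.2), Real.log |((c p.1 : ℝ)) - c p.2| ≤ Real.log Y := by
    intro p hp
    have h2 := hpos p hp
    rw [Nat.cast_natAbs, Int.cast_abs] at h2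
    push_cast at h2
    refine Real.log_le_log h2 ?_
    rw [abs_le]
    have a := h p.1
    have b := h p.2
    have a0 : (0 : ℝ) ≤ c p.1 := Nat.cast_nonneg _
    have b0 : (0 : ℝ) ≤ c p.2 := Nat.cast_nonneg _
    constructor <;> linarith
  have h3 := Finset.sum_le_sum h1
  rw [Finset.sum_const, nsmul_eq_mul] at h3
  have h4 : (((univ : Finset (ι × ι)).filter (fun p => p.1 ≠ p.2)).card : ℝ) ≤ (Fintype.card ι : ℝ) ^ 2 := by
    have h5 : ((univ : Finset (ι × ι)).filter (fun p => p.1 ≠ p.2)).card ≤ Fintype.card ι ^ 2 := by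
      refine (Finset.card_le_univ _).trans ?_
      rw [Fintype.card_prod, pow_two]
    exact_mod_cast h5
  have h6 : 0 ≤ Real.log Y := Real.log_nonneg hY
  have h7 := mul_le_mul_of_nonneg_right h4 h6
  refine le_trans (le_of_eq ?_) (h3.trans h7)
  apply Finset.sum_congr rfl
  intro p _
  rw [Nat.cast_natAbs, Int.cast_abs]
  push_cast
  rfl

theorem Fm_WW {ι : Type} [Fintype ι] [DecidableEq ι] {K Q0 W0 : ℕ} {c : ι → ℕ} (hQ : 1 ≤ Q0) (hW0 : 1 ≤ W0)
    (hp : ∀ p : ℕ, p.Prime → p ∣ Q0 → K < p → p ∣ W0) (hc : Function.Injective c) (h1 : ∀ i, 1 ≤ c i) :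
    H52GS.Fm (WW c * W0) K Q0 c where
  pos := hQ
  Wpos := Nat.mul_pos (WW_pos hc) hW0
  pr := fun p hp1 hp2 hp3 => (hp p hp1 hp2 hp3).mul_left _
  inj := hc
  df := fun _ _ hij _ _ _ hd => (WW_dvd c hij hd).mul_right _
  cpos := h1

/-- the condition on the size of `WW` -/
theorem WW_cond {ι : Type} [Fintype ι] [DecidableEq ι] {K W0 : ℕ} {c : ι → ℕ} {x E A : ℝ} (hc : Function.Injective c)
    (hA : 0 ≤ A) (hx1 : 1 ≤ x) (hx : 2 * (A * E ^ 2 + 1) ≤ Real.log x) (hW0 : 1 ≤ W0) (hW1 : Real.log W0 ≤ Real.log x ^ 3)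
    (hK : Real.log x ^ 4 ≤ K + 1) (h : ∀ i, (c i : ℝ) ≤ x ^ A)
    (hcard : (Fintype.card ι : ℝ) ≤ E * Real.log x) (hKK : 2 * (K + 1) ≤ K * Real.log K) :
    Real.log ((WW c * W0 : ℕ) : ℝ) ≤ 1 / 2 * (K * Real.log K) := by
  have hl : 0 ≤ Real.log x := Real.log_nonneg hx1
  have hx0 : 0 < x := by linarith
  have h1 := WW_log hc (Real.one_le_rpow hx1 hA) h
  rw [Real.log_rpow hx0] at h1
  have h2 : (Fintype.card ι : ℝ) ^ 2 ≤ (E * Real.log x) ^ 2 := pow_le_pow_left₀ (Nat.cast_nonneg _) hcard 2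
  have h3 : 0 ≤ A * Real.log x := by positivity
  have hW0r : (0 : ℝ) < W0 := by exact_mod_cast hW0
  have hWWr : (0 : ℝ) < WW c := by exact_mod_cast WW_pos hc
  push_cast
  rw [Real.log_mul hWWr.ne' hW0r.ne']
  have h4 : Real.log (WW c) ≤ A * E ^ 2 * Real.log x ^ 3 := by
    calc Real.log (WW c) ≤ (Fintype.card ι : ℝ) ^ 2 * (A * Real.log x) := h1
      _ ≤ (E * Real.log x) ^ 2 * (A * Real.log x) := mul_le_mul_of_nonneg_right h2 h3
      _ = A * E ^ 2 * Real.log x ^ 3 := by ring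
  have h5 : 2 * (A * E ^ 2 + 1) * Real.log x ^ 3 ≤ Real.log x * Real.log x ^ 3 :=
    mul_le_mul_of_nonneg_right hx (pow_nonneg hl 3)
  have h6 : Real.log x * Real.log x ^ 3 = Real.log x ^ 4 := by ring
  rw [h6] at h5
  linarith

theorem KK_big {K : ℕ} (hK : 100 ≤ K) : 2 * ((K : ℝ) + 1) ≤ K * Real.log K := by
  have hKr : (100 : ℝ) ≤ K := by exact_mod_cast hK
  have h1 : 3 ≤ Real.log K := by
    rw [Real.le_log_iff_exp_le (by linarith)]
    have := Real.exp_one_lt_d9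
    calc Real.exp 3 = Real.exp 1 ^ 3 := by rw [← Real.exp_nat_mul]; norm_num
      _ ≤ 2.7182818286 ^ 3 := pow_le_pow_left₀ (Real.exp_pos _).le this.le 3
      _ ≤ 100 := by norm_num
      _ ≤ K := hKr
  nlinarith

end H82LW
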