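import Pool.Agent.H52.GS.H4v
import Pool.Agent.H52.GS.Syu

/-!
# H4U: the fourth moment hypothesis, uniformly in the dimension

`h4v` (`Pool/Agent/H69/PG/H4v.lean`) with `euu` (`J0 = 4N`) instead of `elu`.
-/

open Finset EG H69PG

namespace H52GS

theorem h4u : ∃ C1 : ℕ, ∀ (ι : Type) [Fintype ι] [DecidableEq ι] (C N m M W K z Q0 T R b0 : ℕ) (Z : ℕ → ℕ) (v f0 : ℕ → ℝ)
    (l Γ Pl η : ℝ) (c : ι → ℕ), SysU C N m M W K z Q0 T R b0 Z v f0 l Γ Pl η c → C1 * (4 * N + 1) ≤ b0 →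
    Real.exp (-(b0 : ℝ)) + 9 * (4 * (N : ℝ)) ^ 2 / z + (z : ℝ) ^ (3 * (4 * b0 + 10)) / (T * VV W K z (4 * N)) ≤ 1 →
    ∀ U : Finset ι, U.card ≤ 4 * N →
      ∑ t ∈ range T, ∏ i ∈ U, th0 W K z (Q0 * t + c i) ≤ 2 * ((range T).card : ℝ) * Vf N W K z U := by
  obtain ⟨C1, hC11, hC1⟩ := euu
  refine ⟨C1, ?_⟩
  intro ι _ _ C N m M W K z Q0 T R b0 Z v f0 l Γ Pl η c hS hCb hη U hU
  have hK := hS.hK
  have hKz := hS.hKz
  have h1 := hC1 (4 * N) b0 hCb ι W K z Q0 (by omega) (by omega) hKz c hS.fm T U hU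
    (fun _ => {1}) (fun _ _ => 1) (fun _ => 1) (fun _ => 1) (fun _ _ => H4v_good _) (fun _ _ => by simp)
    (fun _ _ p hp hpz => by
      have h0 : ({1} : Finset ℕ).filter (fun B => p ∣ B) = ∅ := by
        rw [Finset.filter_eq_empty_iff]
        intro B hB hpB
        rw [Finset.mem_singleton] at hB
        subst hB
        exact hp.one_lt.ne' (Nat.dvd_one.1 hpB)
      simp only [h0, Finset.sum_empty]
      positivity)
    (fun _ _ => by simp)
  simp only [H4v_Fn, mul_one, Finset.prod_const_one] at h1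
  have hSS : ∏ _i ∈ U, SS {1} (fun _ => (1 : ℝ)) 1 = 1 := by
    rw [H4v_SS, if_pos (one_dvd 1), Finset.prod_const_one]
  rw [hSS, mul_one] at h1
  have hVf : Vf N W K z U = VV W K z U.card := by
    unfold Vf
    rw [if_pos (by omega)]
  rw [hVf, Finset.card_range]
  have hV4 : 0 < VV W K z (4 * N) := vv_pos (by omega)
  have hVj : VV W K z (4 * N) ≤ VV W K z U.card := vv_anti hU (by omega)
  have hVj0 : 0 < VV W K z U.card := lt_of_lt_of_le hV4 hVj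
  have hT : (1 : ℝ) ≤ T := by exact_mod_cast hS.T_pos
  have hT0 : (0 : ℝ) < T := by linarith
  set Wz : ℝ := (z : ℝ) ^ (3 * (4 * b0 + 10)) with hW
  have hW0 : 0 ≤ Wz := by positivity
  have e1 : Wz ≤ (T : ℝ) * VV W K z U.card * (Wz / (T * VV W K z (4 * N))) := by
    have e2 : (T : ℝ) * VV W K z U.card * (Wz / (T * VV W K z (4 * N))) = Wz * (VV W K z U.card / VV W K z (4 * N)) := by
      field_simp
    rw [e2]
    have e3 : 1 ≤ VV W K z U.card / VV W K z (4 * N) := (one_le_div hV4).2 hVj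
    nlinarith
  have hTV : 0 ≤ (T : ℝ) * VV W K z U.card := by positivity
  have h2 := (abs_le.1 h1).2
  push_cast at h2
  have h3 : (T : ℝ) * VV W K z U.card * (Real.exp (-(b0 : ℝ)) + 9 * (4 * (N : ℝ)) ^ 2 / z) + Wz ≤
      (T : ℝ) * VV W K z U.card * 1 := by
    calc (T : ℝ) * VV W K z U.card * (Real.exp (-(b0 : ℝ)) + 9 * (4 * (N : ℝ)) ^ 2 / z) + Wz
        ≤ (T : ℝ) * VV W K z U.card * (Real.exp (-(b0 : ℝ)) + 9 * (4 * (N : ℝ)) ^ 2 / z) +
            (T : ℝ) * VV W K z U.card * (Wz / (T * VV W K z (4 * N))) := by linarith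
      _ = (T : ℝ) * VV W K z U.card * (Real.exp (-(b0 : ℝ)) + 9 * (4 * (N : ℝ)) ^ 2 / z + Wz / (T * VV W K z (4 * N))) := by ring
      _ ≤ (T : ℝ) * VV W K z U.card * 1 := mul_le_mul_of_nonneg_left hη hTV
  linarith

end H52GS
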