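import Pool.Agent.H69.PG.Zfl
import Pool.Agent.H82.LX.Num

/-!
# PARA: small lemmas for `Crv.lean` (copies, so that the large files are not imported)
-/

open Finset EG H69PG H82LX

namespace H82LW

theorem Crv_K {n H : ℝ} {A : ℕ} (hn : 1 ≤ n) (hA : 16 * (A : ℝ) ≤ n) (hH : n ^ 8 ≤ H) :
    (A : ℝ) * Real.log H ≤ 1 / n ^ 2 / 2 * H := by
  have hn0 : 0 < n := by linarith
  have hH0 : 0 < H := lt_of_lt_of_le (by positivity) hH
  obtain ⟨u, hu⟩ : ∃ u : ℝ, u = H ^ (1 / 8 : ℝ) := ⟨_, rfl⟩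
  have hu0 : 0 < u := by rw [hu]; positivity
  have hu8 : u ^ 8 = H := by
    rw [hu, ← Real.rpow_natCast, ← Real.rpow_mul hH0.le]
    norm_num
  have hnu : n ≤ u := by
    by_contra hcon
    push Not at hcon
    have : u ^ 8 < n ^ 8 := pow_lt_pow_left₀ hcon hu0.le (by norm_num)
    rw [hu8] at this
    linarith
  have hu1 : 1 ≤ u := hn.trans hnu
  have h2 : Real.log u ≤ u := (Real.log_le_sub_one_of_pos hu0).trans (by linarith)
  have h3 : Real.log H = 8 * Real.log u := by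
    rw [← hu8, Real.log_pow]
    norm_num
  have hA0 : (0 : ℝ) ≤ A := Nat.cast_nonneg A
  have h4 : (A : ℝ) * Real.log H ≤ u / 16 * (8 * u) := by
    rw [h3]
    exact mul_le_mul (by linarith) (by linarith) (mul_nonneg (by norm_num) (Real.log_nonneg hu1)) (by positivity)
  have h5 : 1 / u ^ 2 / 2 * H ≤ 1 / n ^ 2 / 2 * H := by
    have e1 : n ^ 2 ≤ u ^ 2 := pow_le_pow_left₀ hn0.le hnu 2
    have e2 : 1 / u ^ 2 ≤ 1 / n ^ 2 := one_div_le_one_div_of_le (by positivity) e1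
    exact mul_le_mul_of_nonneg_right (by linarith) hH0.le
  have h6 : 1 / u ^ 2 / 2 * H = u ^ 6 / 2 := by
    rw [← hu8]
    field_simp
  have h7 : u ^ 2 ≤ u ^ 6 := pow_le_pow_right₀ hu1 (by norm_num)
  calc (A : ℝ) * Real.log H ≤ u / 16 * (8 * u) := h4
    _ = u ^ 2 / 2 := by ring
    _ ≤ u ^ 6 / 2 := by linarith
    _ ≤ 1 / n ^ 2 / 2 * H := by rw [← h6]; exact h5

/-- the exponential sum -/
theorem Cor_S {m : ℕ} {w W f0 : ℕ → ℝ} {τ cφ : ℝ} (hτ : 0 ≤ τ) (hw : ∀ a ∈ Icc 1 m, 0 ≤ w a ∧ τ * w a ≤ 1)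
    (hW : ∀ a ∈ Icc 1 m, 0 ≤ W a) (h : ∑ a ∈ Icc 1 m, f0 a ^ 2 * W a * w a = cφ) :
    ∑ a ∈ Icc 1 m, f0 a ^ 2 * W a * (Real.exp (τ * w a) - 1) ≤ 2 * τ * cφ := by
  rw [← h, Finset.mul_sum]
  refine Finset.sum_le_sum fun a ha => ?_
  obtain ⟨h1, h2⟩ := hw a ha
  have h3 : Real.exp (τ * w a) - 1 ≤ 2 * (τ * w a) := by
    have h4 := Real.abs_exp_sub_one_le (x := τ * w a) (by rw [abs_of_nonneg (by positivity)]; exact h2)
    rw [abs_of_nonneg (a := τ * w a) (by positivity)] at h4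
    exact (le_abs_self _).trans h4
  have h5 : 0 ≤ f0 a ^ 2 * W a := mul_nonneg (sq_nonneg _) (hW a ha)
  calc f0 a ^ 2 * W a * (Real.exp (τ * w a) - 1) ≤ f0 a ^ 2 * W a * (2 * (τ * w a)) := mul_le_mul_of_nonneg_left h3 h5
    _ = _ := by ring

/-- the boundary condition -/
theorem Cor_num {G μ S τ cφ r D Nr m E lv : ℝ} (hD : 1 ≤ D) (hr : 0 < r) (hr1 : r ≤ 1) (hN : 0 < Nr) (hm : 0 < m)
    (hG0 : 0 ≤ G) (hG : G ≤ 2 * D * (1 / Nr ^ 2) / r) (hμ0 : 0 ≤ μ) (hμ : μ ≤ r * m * Nr ^ 2 / (256 * D))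
    (hc0 : 0 < cφ) (hc : cφ ≤ 4 * D * (1 / Nr ^ 2) / m) (hτ : 0 ≤ τ) (hS : S ≤ 2 * τ * cφ) (hlv : 1 / 16 ≤ lv)
    (hE : E = Real.exp (-(τ / 32))) (hmE : m * E ≤ 1) :
    G * (μ * Real.exp (μ * S - τ * lv)) ≤ 1 / 8 := by
  have hD0 : 0 < D := by linarith
  have h1 : μ * cφ ≤ 1 / 64 := by
    calc μ * cφ ≤ (r * m * Nr ^ 2 / (256 * D)) * (4 * D * (1 / Nr ^ 2) / m) := mul_le_mul hμ hc hc0.le (hμ0.trans hμ)
      _ = r / 64 := by field_simp; ring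
      _ ≤ 1 / 64 := by linarith
  have h2 : μ * S ≤ τ / 32 := by
    calc μ * S ≤ μ * (2 * τ * cφ) := mul_le_mul_of_nonneg_left hS hμ0
      _ = 2 * τ * (μ * cφ) := by ring
      _ ≤ 2 * τ * (1 / 64) := mul_le_mul_of_nonneg_left h1 (by positivity)
      _ = τ / 32 := by ring
  have h3 : Real.exp (μ * S - τ * lv) ≤ E := by
    rw [hE]
    apply Real.exp_le_exp.2
    have : τ * (1 / 16) ≤ τ * lv := mul_le_mul_of_nonneg_left hlv hτ
    linarith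
  have hE0 : 0 < E := by rw [hE]; exact Real.exp_pos _
  have h4 : G * μ ≤ m / 128 := by
    calc G * μ ≤ (2 * D * (1 / Nr ^ 2) / r) * (r * m * Nr ^ 2 / (256 * D)) := mul_le_mul hG hμ hμ0 (hG0.trans hG)
      _ = m / 128 := by field_simp; ring
  calc G * (μ * Real.exp (μ * S - τ * lv)) = (G * μ) * Real.exp (μ * S - τ * lv) := by ring
    _ ≤ (m / 128) * E := mul_le_mul h4 h3 (Real.exp_pos _).le (by positivity)
    _ = (m * E) / 128 := by ring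
    _ ≤ 1 / 8 := by linarith

theorem CoB_vs_pos {B m : ℕ} {v : ℝ} (hB : 1 ≤ B) (hv : 0 < v) {a : ℕ} (ha : 1 ≤ a) : 0 < vs B m v a := by
  unfold vs
  rw [if_neg (by omega)]
  have : (0 : ℝ) < B := by exact_mod_cast hB
  positivity

/-- the coefficients of the scales -/
theorem CoB_f0 {m : ℕ} (hm : 1 ≤ m) {w W : ℕ → ℝ} {v1 E : ℝ} (hv1 : 0 < v1) (hw : ∀ a ∈ Icc 1 m, v1 ≤ w a)
    (hE : 0 < E) (hW : ∀ a ∈ Icc 1 m, w a / E ≤ W a) :
    ∃ cφ : ℝ, 0 < cφ ∧ cφ ≤ E / m ∧ ∑ a ∈ Icc 1 m, cφ / w a * W a = 1 ∧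
      ∑ a ∈ Icc 1 m, (cφ / w a) ^ 2 * W a ≤ cφ / v1 ∧ ∑ a ∈ Icc 1 m, (cφ / w a) ^ 2 * W a * w a = cφ := by
  have hm0 : (0 : ℝ) < m := by exact_mod_cast hm
  have hw0 : ∀ a ∈ Icc 1 m, 0 < w a := fun a ha => lt_of_lt_of_le hv1 (hw a ha)
  set S := ∑ a ∈ Icc 1 m, W a / w a with hS
  have hS1 : (m : ℝ) / E ≤ S := by
    have h1 : ∑ _a ∈ Icc 1 m, (1 / E : ℝ) ≤ S := by
      refine Finset.sum_le_sum fun a ha => ?_
      rw [le_div_iff₀ (hw0 a ha)]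
      refine le_trans (le_of_eq ?_) (hW a ha)
      ring
    rw [Finset.sum_const, Nat.card_Icc, nsmul_eq_mul] at h1
    have h2 : ((m + 1 - 1 : ℕ) : ℝ) = m := by simp
    rw [h2] at h1
    rwa [mul_one_div] at h1
  have hS0 : 0 < S := lt_of_lt_of_le (by positivity) hS1
  have hsum1 : ∑ a ∈ Icc 1 m, S⁻¹ / w a * W a = 1 := by
    have : ∑ a ∈ Icc 1 m, S⁻¹ / w a * W a = S⁻¹ * S := by
      rw [hS, Finset.mul_sum]
      refine Finset.sum_congr rfl fun a _ => ?_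
      rw [← hS]
      ring
    rw [this, inv_mul_cancel₀ hS0.ne']
  refine ⟨S⁻¹, inv_pos.2 hS0, ?_, hsum1, ?_, ?_⟩
  · rw [inv_le_comm₀ hS0 (by positivity), inv_div]
    exact hS1
  · have h1 : ∑ a ∈ Icc 1 m, (S⁻¹ / w a) ^ 2 * W a ≤ ∑ a ∈ Icc 1 m, (S⁻¹ / v1) * (S⁻¹ / w a * W a) := by
      refine Finset.sum_le_sum fun a ha => ?_
      have hwa := hw0 a ha
      have hWa : 0 ≤ W a := le_trans (by positivity) (hW a ha)
      have h2 : S⁻¹ / w a ≤ S⁻¹ / v1 := div_le_div_of_nonneg_left (inv_pos.2 hS0).le hv1 (hw a ha)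
      have h3 : 0 ≤ S⁻¹ / w a * W a := by positivity
      calc (S⁻¹ / w a) ^ 2 * W a = (S⁻¹ / w a) * (S⁻¹ / w a * W a) := by ring
        _ ≤ (S⁻¹ / v1) * (S⁻¹ / w a * W a) := mul_le_mul_of_nonneg_right h2 h3
    rw [← Finset.mul_sum, hsum1, mul_one] at h1
    exact h1
  · have h1 : ∑ a ∈ Icc 1 m, (S⁻¹ / w a) ^ 2 * W a * w a = ∑ a ∈ Icc 1 m, S⁻¹ * (S⁻¹ / w a * W a) := by
      refine Finset.sum_congr rfl fun a ha => ?_
      have hwa := (hw0 a ha).ne'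
      field_simp
    rw [h1, ← Finset.mul_sum, hsum1, mul_one]

end H82LW
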