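import Pool.Agent.H82.LW.Crv
import Pool.Agent.H82.LW.ParB

/-!
# GEN0: few shifts without primes, arbitrary sets of shifts

As `fin_uni` (`Pool/Agent/H82/LX/Fiv.lean`) with the counting core `corW` (`Crv.lean`), for an arbitrary finite set `P` of nonnegative shifts.
-/

open Finset EG H69PG H82LX H82LW

namespace H52GS

theorem Gen_sum (Q0 : ℕ) (P : Finset ℕ) :
    ∑ b ∈ range Q0, (P.filter (fun k => Nat.Coprime (0 + 1 + b + k) Q0)).card
      = P.card * Nat.totient Q0 := by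
  simp only [Finset.card_filter]
  rw [Finset.sum_comm]
  have h : ∀ k ∈ P, (∑ b ∈ range Q0, if Nat.Coprime (0 + 1 + b + k) Q0 then 1 else 0)
      = Nat.totient Q0 := by
    intro k _
    rw [← Finset.card_filter]
    exact Fin_count Q0 0 k
  rw [Finset.sum_congr rfl h]
  simp

open Classical in
theorem Gen_good (Q0 : ℕ) (P : Finset ℕ) (J : ℝ) (hQ : 0 < Q0) (hJ : 0 < J) (hP : (P.card : ℝ) ≤ J) :
    (Q0 : ℝ) / 2 ≤ (((range Q0).filter (fun b =>
      ((P.filter (fun k => Nat.Coprime (0 + 1 + b + k) Q0)).card : ℝ) ≤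
        2 * J * ((Nat.totient Q0 : ℝ) / (Q0 : ℝ)))).card : ℝ) := by
  have hQ' : (0 : ℝ) < Q0 := by exact_mod_cast hQ
  have hφ : (0 : ℝ) < Nat.totient Q0 := by exact_mod_cast Nat.totient_pos.2 hQ
  have h1 : (∑ b ∈ range Q0,
      ((P.filter (fun k => Nat.Coprime (0 + 1 + b + k) Q0)).card : ℝ)) = P.card * Nat.totient Q0 := by
    exact_mod_cast Gen_sum Q0 P
  set s : ℕ → ℝ := fun b => ((P.filter (fun k => Nat.Coprime (0 + 1 + b + k) Q0)).card : ℝ) with hs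
  have hs0 : ∀ b, 0 ≤ s b := fun b => Nat.cast_nonneg _
  set β : ℝ := 2 * J * ((Nat.totient Q0 : ℝ) / (Q0 : ℝ)) with hβ
  have hβ0 : 0 < β := by positivity
  have h1' : ∑ b ∈ range Q0, s b ≤ J * Nat.totient Q0 := by
    rw [h1]
    exact mul_le_mul_of_nonneg_right hP hφ.le
  have h2 : (((range Q0).filter (fun b => ¬ s b ≤ β)).card : ℝ) * β ≤ J * Nat.totient Q0 := by
    refine le_trans ?_ h1'
    rw [← nsmul_eq_mul]
    refine (Finset.card_nsmul_le_sum _ s _ ?_).trans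
      (Finset.sum_le_sum_of_subset_of_nonneg (Finset.filter_subset _ _) fun b _ _ => hs0 b)
    intro b hb
    exact (not_le.1 (Finset.mem_filter.1 hb).2).le
  have h3 : (((range Q0).filter (fun b => ¬ s b ≤ β)).card : ℝ) ≤ Q0 / 2 := by
    have e : J * Nat.totient Q0 = Q0 / 2 * β := by
      rw [hβ]
      field_simp
    rw [e] at h2
    exact le_of_mul_le_mul_right h2 hβ0
  have h4 : ((range Q0).filter (fun b => s b ≤ β)).card +
      ((range Q0).filter (fun b => ¬ s b ≤ β)).card = Q0 := by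
    rw [Finset.card_filter_add_card_filter_not, Finset.card_range]
  have h5 : (((range Q0).filter (fun b => s b ≤ β)).card : ℝ) +
      (((range Q0).filter (fun b => ¬ s b ≤ β)).card : ℝ) = Q0 := by
    exact_mod_cast h4
  have h6 : (Q0 : ℝ) / 2 ≤ (((range Q0).filter (fun b => s b ≤ β)).card : ℝ) := by linarith
  exact h6

theorem Gen_ev {A : ℝ} (hA : 0 < A) : ∃ x0 : ℝ, ∀ x : ℝ, x0 ≤ x → 1 ≤ x ∧
    2 * ((A + 1) * Real.log (Real.log x) ^ 2 + 1) ≤ Real.log x := by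
  have e1 := ((isLittleO_log_rpow_atTop (r := 1 / 2) (by norm_num)).comp_tendsto Real.tendsto_log_atTop).bound
    (show (0 : ℝ) < 1 / (2 * (A + 1)) by positivity)
  have e2 := Filter.eventually_ge_atTop (Real.exp 4)
  refine Filter.eventually_atTop.1 ?_
  filter_upwards [e1, e2] with x a1 a2
  have hx0 : 0 < x := (Real.exp_pos _).trans_le a2
  have hH : 4 ≤ Real.log x := (Real.le_log_iff_exp_le hx0).2 a2
  have hx1 : 1 ≤ x := by
    rw [← Real.log_nonneg_iff hx0]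
    linarith
  refine ⟨hx1, ?_⟩
  simp only [Function.comp_apply, Real.norm_eq_abs] at a1
  set H := Real.log x with hHd
  have hl : 0 ≤ Real.log H := Real.log_nonneg (by linarith)
  rw [abs_of_nonneg hl, abs_of_nonneg (by positivity)] at a1
  have h1 : Real.log H ^ 2 ≤ (1 / (2 * (A + 1)) * H ^ (1 / 2 : ℝ)) ^ 2 := pow_le_pow_left₀ hl a1 2
  have h2 : (H ^ (1 / 2 : ℝ)) ^ 2 = H := by
    rw [← Real.rpow_natCast, ← Real.rpow_mul (by linarith)]
    norm_num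
  rw [mul_pow, h2] at h1
  have h3 : (A + 1) * Real.log H ^ 2 ≤ (A + 1) * ((1 / (2 * (A + 1))) ^ 2 * H) :=
    mul_le_mul_of_nonneg_left h1 (by linarith)
  have h4 : (A + 1) * ((1 / (2 * (A + 1))) ^ 2 * H) = 1 / (4 * (A + 1)) * H := by
    field_simp
    ring
  have h5 : 1 / (4 * (A + 1)) ≤ 1 / 4 := one_div_le_one_div_of_le (by norm_num) (by linarith)
  have h6 : 1 / (4 * (A + 1)) * H ≤ 1 / 4 * H := mul_le_mul_of_nonneg_right h5 (by linarith)
  linarith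

theorem Gn1 {s H : ℝ} (h0 : 0 < s) (h : s * s = H) (hH : 80000 ≤ H) : s * 200 ≤ H := by
  have h1 : 200 ≤ s := by nlinarith
  nlinarith

theorem Gn2 {H : ℝ} (hH : 80000 ≤ H) : H ≤ (H / 200) ^ 2 := by nlinarith

theorem Gn3 {H u x : ℝ} (hH : 80000 ≤ H) (hu : 0 ≤ u) (h : 2 + u + H ^ 2 ≤ x) : 3 ≤ x := by nlinarith

theorem Gn4 {a b c t : ℝ} (h1 : a - 1 < t) (h4 : b * c ≤ a) (h6 : 2 ≤ c) (h9 : 1 ≤ b) : b ≤ t := by nlinarith

theorem Gn6 {a x : ℝ} (ha : 1 ≤ a) (hx : 1 ≤ x) : a + (x - 1) ≤ a * x := by nlinarith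

theorem Gn8 {x T Q : ℝ} (h : x < (T + 1) * Q) : x - Q ≤ Q * T := by linarith

theorem Gn9 {x Q T B c : ℝ} (hc : 0 ≤ c) (h1 : x / 2 ≤ Q * T) (h2 : Q / 2 * (c * T) ≤ B * (c * T)) :
    c / 4 * x ≤ B * (c * T) := by
  refine le_trans ?_ h2
  have := mul_le_mul_of_nonneg_left h1 hc
  linarith

theorem Gn10 {E F : ℝ} (hE : 1 ≤ E) (hF : 7 ≤ F) : E + 3 ≤ E * F := by nlinarith

theorem Gn11 (y : ℝ) (hy : 1 ≤ y) : 7 ≤ Real.exp (2 * y) := by
  have h5 : (Real.exp 1) ^ 2 = Real.exp 2 := by rw [← Real.exp_nat_mul]; norm_num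
  have h6 : (7 : ℝ) ≤ (Real.exp 1) ^ 2 := by
    have := Real.exp_one_gt_d9
    nlinarith
  rw [h5] at h6
  exact h6.trans (Real.exp_le_exp.2 (by linarith))

open Classical in
theorem gen0 {r A : ℝ} (hr : 0 < r) (hA : 0 < A) :
    ∃ c : ℝ, 0 < c ∧ ∃ C x0 : ℝ, ∀ x : ℝ, x0 ≤ x →
      ∀ lam : ℝ, 1 ≤ lam → lam ≤ c * Real.log (Real.log x) →
      ∀ P : Finset ℕ, (P.card : ℝ) ≤ lam * Real.log x → (∀ k ∈ P, (k : ℝ) ≤ x ^ A) →
      x * Real.exp (-Real.exp (C * lam)) ≤ (((Icc 1 ⌊x⌋₊).filter (fun n : ℕ => ∀ k ∈ P,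
        ¬ (n + k).Prime ∧ ∃ p : ℕ, p.Prime ∧ (p : ℝ) ≤ x ^ r ∧ p ∣ n + k)).card : ℝ) := by
  set r1 : ℝ := min r (1 / 16) with hr1def
  have hr1 : 0 < r1 := lt_min hr (by norm_num)
  have hr1r : r1 ≤ r := min_le_left _ _
  have hr116 : r1 ≤ 1 / 16 := min_le_right _ _
  have hr1h : r1 ≤ 1 / 2 := by linarith
  obtain ⟨c0, hc0, C0, hC0, m0, hcore⟩ := corW (⌈A⌉₊ + 5) (by omega) hr1 hr116
  obtain ⟨D, hD, hmert⟩ := Fiv_mert
  obtain ⟨C2, hC2, hpar⟩ := Fiv_par (D := 5 * D) (by linarith) hc0 hC0 m0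
  obtain ⟨x1, hev⟩ := Fiv_ev hr1 hC2
  obtain ⟨x2, hev2⟩ := Gen_ev hA
  refine ⟨1 / (2 * C2), by positivity, C2 + 2, max x1 x2, ?_⟩
  intro x hx lam hlam hlamu P hPc hPA
  obtain ⟨h1x, hsz, hlx, hq, hcx, hH, hlamH⟩ := hev x ((le_max_left _ _).trans hx)
  obtain ⟨-, hev3⟩ := hev2 x ((le_max_right _ _).trans hx)
  obtain ⟨m, hm, hm1, hm2⟩ := hpar lam hlam
  have hx0 : 0 < x := by linarith
  set H := Real.log x with hHd
  have hlamH' : lam ≤ H / 80000 := hlamu.trans hlamH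
  have hH0 : 0 < H := by linarith
  have hlogH : 0 ≤ Real.log H := Real.log_nonneg (by linarith)
  have hlam2 : lam ≤ Real.log H := by
    refine hlamu.trans ?_
    have h3 : 1 / (2 * C2) ≤ 1 := by
      rw [div_le_one (by positivity)]
      linarith
    calc 1 / (2 * C2) * Real.log H ≤ 1 * Real.log H := mul_le_mul_of_nonneg_right h3 hlogH
      _ = Real.log H := one_mul _
  have hEH : Real.exp (C2 * lam) ≤ H ^ (1 / 2 : ℝ) := by
    rw [Real.rpow_def_of_pos hH0]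
    refine Real.exp_le_exp.2 ?_
    calc C2 * lam ≤ C2 * (1 / (2 * C2) * Real.log H) := mul_le_mul_of_nonneg_left hlamu (by linarith)
      _ = Real.log H * (1 / 2) := by field_simp
  have hHs : H ^ (1 / 2 : ℝ) * 200 ≤ H := by
    have hss : H ^ (1 / 2 : ℝ) * H ^ (1 / 2 : ℝ) = H := by
      rw [← Real.rpow_add hH0]
      norm_num
    have hs0 : 0 < H ^ (1 / 2 : ℝ) := by positivity
    exact Gn1 hs0 hss hH
  have hEm : Real.exp (C0 * m) ≤ Real.exp (C2 * lam) := Real.exp_le_exp.2 hm2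
  obtain ⟨K, hK⟩ : ∃ K : ℕ, K = ⌈H ^ 4⌉₊ := ⟨_, rfl⟩
  have hKge : H ^ 4 ≤ K := by rw [hK]; exact Nat.le_ceil _
  have hH4 : H ≤ H ^ 4 := le_self_pow₀ (by linarith) (by norm_num)
  have hKle : (K : ℝ) ≤ H ^ 5 := by
    rw [hK]
    have h1 := (Nat.ceil_lt_add_one (show 0 ≤ H ^ 4 by positivity)).le
    have h2 : H ^ 4 * 2 ≤ H ^ 4 * H := mul_le_mul_of_nonneg_left (by linarith) (by positivity)
    have h3 : H ^ 4 * H = H ^ 5 := by ring
    linarith
  have hK100 : 100 ≤ K := by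
    have : (100 : ℝ) ≤ K := by linarith
    exact_mod_cast this
  have hKpos : 0 < K := by omega
  set z0 : ℕ := ⌊Real.log x / 100⌋₊ with hz0
  set Q0 : ℕ := primorial z0 with hQ0
  set T : ℕ := ⌊x / (Q0 : ℝ)⌋₊ with hT
  have hQ : 0 < Q0 := primorial_pos z0
  have hQr : (0 : ℝ) < Q0 := by exact_mod_cast hQ
  have hz0le : 100 * (z0 : ℝ) ≤ Real.log x := by
    have := Nat.floor_le (show 0 ≤ Real.log x / 100 by positivity)
    linarith
  have hQle : (Q0 : ℝ) ≤ x ^ (1 / 50 : ℝ) := Amp_prim h1x hz0le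
  have hLl : 0 < lam * H := by positivity
  have hzK : z0 ≤ K := by
    have : (z0 : ℝ) ≤ K := by linarith
    exact_mod_cast this
  have hz0ge : H / 200 ≤ (z0 : ℝ) := by
    have h1 := Nat.sub_one_lt_floor (Real.log x / 100)
    have h3 : (⌊Real.log x / 100⌋₊ : ℝ) = z0 := rfl
    rw [h3] at h1
    linarith
  have hz02 : 2 ≤ z0 := by
    have : (2 : ℝ) ≤ z0 := by linarith
    exact_mod_cast this
  have hlz0 : 0 < Real.log (z0 : ℝ) := Real.log_pos (by exact_mod_cast (by omega : 1 < z0))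
  have hlK : Real.log K ≤ 10 * Real.log z0 := by
    rw [show 10 * Real.log (z0 : ℝ) = Real.log ((z0 : ℝ) ^ 10) by rw [Real.log_pow]; norm_num]
    apply Real.log_le_log (by exact_mod_cast hKpos)
    have h1 : H ≤ (H / 200) ^ 2 := Gn2 hH
    calc (K : ℝ) ≤ H ^ 5 := hKle
      _ ≤ ((H / 200) ^ 2) ^ 5 := pow_le_pow_left₀ hH0.le h1 5
      _ = (H / 200) ^ 10 := by ring
      _ ≤ (z0 : ℝ) ^ 10 := by gcongr
  have hzr : (z0 : ℝ) ≤ x ^ r1 := (Nat.floor_le (by positivity)).trans hlx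
  obtain ⟨E, hE⟩ : ∃ E : ℝ, E = Real.exp (C2 * lam) := ⟨_, rfl⟩
  set S : ℕ → Finset ℕ := fun b => P.filter (fun k => Nat.Coprime (0 + 1 + b + k) Q0) with hS
  set B : Finset ℕ := (range Q0).filter (fun b =>
      ((P.filter (fun k => Nat.Coprime (0 + 1 + b + k) Q0)).card : ℝ) ≤
        2 * (lam * H) * ((Nat.totient Q0 : ℝ) / (Q0 : ℝ))) with hB
  have hBc : (Q0 : ℝ) / 2 ≤ (B.card : ℝ) := Gen_good Q0 P (lam * H) hQ hLl hPc
  set G : ℕ → Finset ℕ := fun b => (range T).filter (fun t => ∀ k ∈ S b, ∃ p : ℕ, p.Prime ∧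
    (p : ℝ) ≤ x ^ r1 ∧ p ∣ Q0 * t + (0 + 1 + b + k)) with hG
  obtain ⟨c1, hc1⟩ : ∃ c1 : ℝ, c1 = Real.exp (-E) := ⟨_, rfl⟩
  have hc10 : 0 < c1 := by rw [hc1]; exact Real.exp_pos _
  have hA1 : x ^ (⌈A⌉₊ + 5) = x ^ (⌈A⌉₊ : ℕ) * x ^ 5 := pow_add _ _ _
  have hA2 : 1 ≤ x ^ (⌈A⌉₊ : ℕ) := one_le_pow₀ h1x
  have hx3 : 3 ≤ x := Gn3 hH (Real.rpow_nonneg hx0.le _) hsz
  have hcapp : ∀ (b : ℕ), b < Q0 → ((S b).card : ℝ) ≤ 2 * (lam * H) * ((Nat.totient Q0 : ℝ) / (Q0 : ℝ)) →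
      (T : ℝ) ≤ Real.exp (Real.exp (C0 * m)) * ((G b).card : ℝ) := by
    intro b hbq hbs
    have hSs : S b ⊆ P := Finset.filter_subset _ _
    have hbQ : (b : ℝ) ≤ Q0 := by exact_mod_cast hbq.le
    have hT7 : x ^ (7 / 10 : ℝ) ≤ T := by
      have h1 := Nat.sub_one_lt_floor (x / (Q0 : ℝ))
      have h3 : (⌊x / (Q0 : ℝ)⌋₊ : ℝ) = T := rfl
      rw [h3] at h1
      have h4 : x ^ (49 / 50 : ℝ) ≤ x / Q0 := by
        rw [le_div_iff₀ hQr]
        calc x ^ (49 / 50 : ℝ) * (Q0 : ℝ) ≤ x ^ (49 / 50 : ℝ) * x ^ (1 / 50 : ℝ) :=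
              mul_le_mul_of_nonneg_left hQle (Real.rpow_nonneg hx0.le _)
          _ = x := by rw [← Real.rpow_add hx0]; norm_num
      have h5 : x ^ (49 / 50 : ℝ) = x ^ (7 / 10 : ℝ) * x ^ (7 / 25 : ℝ) := by
        rw [← Real.rpow_add hx0]
        norm_num
      have h6 : 2 ≤ x ^ (7 / 25 : ℝ) := by
        rw [Real.rpow_def_of_pos hx0]
        have h7 := Real.add_one_le_exp (Real.log x * (7 / 25))
        rw [← hHd] at h7 ⊢
        linarith
      have h9 : 1 ≤ x ^ (7 / 10 : ℝ) := Real.one_le_rpow h1x (by norm_num)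
      rw [h5] at h4
      exact Gn4 h1 h4 h6 h9
    obtain ⟨cc, hcc⟩ : ∃ cc : {k // k ∈ S b} → ℕ, cc = fun k => 0 + 1 + b + k.1 := ⟨_, rfl⟩
    have hinj : Function.Injective cc := by
      intro i j h
      rw [hcc] at h
      have h' : 0 + 1 + b + i.1 = 0 + 1 + b + j.1 := h
      exact Subtype.ext (by omega)
    have hpos : ∀ i, 1 ≤ cc i := by
      intro i
      rw [hcc]
      show 1 ≤ 0 + 1 + b + i.1
      omega
    have hFm : Fm (WW cc * 1) K Q0 cc := Fm_WW hQ le_rfl (by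
      intro p hp hd hKp
      have h1 : p ≤ z0 := hp.dvd_primorial_iff.1 hd
      omega) hinj hpos
    have hccle : ∀ i, (cc i : ℝ) ≤ 1 + x ^ (1 / 50 : ℝ) + x ^ A := by
      intro i
      have hi := hPA i.1 (hSs i.2)
      rw [hcc]
      push_cast
      linarith
    have hxA1 : x ^ (A + 1) = x ^ A * x := by rw [Real.rpow_add hx0, Real.rpow_one]
    have hxA2 : 1 ≤ x ^ A := Real.one_le_rpow h1x hA.le
    have hcondW : Real.log ((WW cc * 1 : ℕ) : ℝ) ≤ 1 / 2 * (K * Real.log K) := by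
      refine WW_cond (E := lam) (A := A + 1) (x := x) hinj (by linarith) h1x ?_ le_rfl ?_ (by rw [← hHd]; linarith) ?_ ?_ (KK_big hK100)
      · rw [← hHd]
        refine le_trans ?_ hev3
        have h1 : lam ^ 2 ≤ Real.log H ^ 2 := pow_le_pow_left₀ (by linarith) hlam2 2
        have h2 : (A + 1) * lam ^ 2 ≤ (A + 1) * Real.log H ^ 2 := mul_le_mul_of_nonneg_left h1 (by linarith)
        linarith
      · rw [← hHd]
        simp only [Nat.cast_one, Real.log_one]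
        positivity
      · intro i
        refine (hccle i).trans ?_
        rw [hxA1]
        have h4 : x ^ A + (x - 1) ≤ x ^ A * x := Gn6 hxA2 h1x
        have h5 : 0 ≤ H ^ 2 := sq_nonneg H
        linarith
      · rw [← hHd, Fintype.card_coe]
        exact le_trans (by exact_mod_cast Finset.card_le_card hSs) hPc
    have h1 := hcore m hm x h1x (hEm.trans (hEH.trans (by linarith))) {k // k ∈ S b} (WW cc * 1) K Q0 T cc
      (by linarith [hEm.trans hEH]) (by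
        exact hKle.trans (pow_le_pow_right₀ (by linarith) (by omega))) hFm hcondW (by
        rw [Fintype.card_coe]
        have hφ := hmert z0 hz02
        have h2 : 0 ≤ (Nat.totient Q0 : ℝ) / (Q0 : ℝ) := by positivity
        have h3 : 0 ≤ Real.log (K : ℝ) := Real.log_natCast_nonneg K
        calc ((S b).card : ℝ) * Real.log K ≤ (2 * (lam * H) * (D / Real.log z0)) * (10 * Real.log z0) := by
              refine mul_le_mul (hbs.trans ?_) hlK h3 (by positivity)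
              exact mul_le_mul_of_nonneg_left hφ (by positivity)
          _ = (4 * (5 * D) * lam) * H := by field_simp; ring
          _ ≤ (c0 * m) * H := mul_le_mul_of_nonneg_right hm1 hH0.le) hT7 (by
        intro i t ht
        have hi := hccle i
        have hQt : (Q0 : ℝ) * t ≤ x := by
          have h1 : (t : ℝ) ≤ x / (Q0 : ℝ) := (Nat.cast_le.2 ht.le).trans (Nat.floor_le (by positivity))
          rw [le_div_iff₀ hQr] at h1
          linarith
        have hAc : A ≤ ⌈A⌉₊ := Nat.le_ceil A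
        have hXA : x ^ A ≤ x ^ (⌈A⌉₊ : ℕ) := by
          rw [← Real.rpow_natCast]
          exact Real.rpow_le_rpow_of_exponent_le h1x hAc
        have hHH : 0 ≤ H ^ 2 := sq_nonneg H
        have e2 : (Q0 : ℝ) * t + cc i ≤ x ^ (⌈A⌉₊ : ℕ) + 2 * x := by linarith
        have e3 : x ^ (⌈A⌉₊ : ℕ) + 2 * x ≤ x ^ (⌈A⌉₊ : ℕ) * x ^ 2 := Fiv_a hA2 hx3
        have e4 : x ^ (⌈A⌉₊ : ℕ) * x ^ 2 ≤ x ^ (⌈A⌉₊ : ℕ) * x ^ 5 :=
          mul_le_mul_of_nonneg_left (pow_le_pow_right₀ h1x (by norm_num)) (by positivity)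
        push_cast
        rw [hA1]
        linarith)
    refine h1.trans (mul_le_mul_of_nonneg_left ?_ (Real.exp_pos _).le)
    norm_cast
    refine Finset.card_le_card ?_
    intro t ht
    rw [Finset.mem_filter] at ht ⊢
    rw [hcc] at ht
    exact ⟨ht.1, fun k hk => ht.2 ⟨k, hk⟩⟩
  have hGc : ∀ b ∈ B, c1 * (T : ℝ) ≤ ((G b).card : ℝ) := by
    intro b hb
    have hbq := Finset.mem_range.1 (Finset.mem_filter.1 hb).1
    have hbs := (Finset.mem_filter.1 hb).2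
    have h1 := hcapp b hbq hbs
    have h2 : Real.exp (Real.exp (C0 * m)) ≤ Real.exp E := Real.exp_le_exp.2 (by rw [hE]; exact hEm)
    have h3 : (T : ℝ) ≤ Real.exp E * ((G b).card : ℝ) :=
      h1.trans (mul_le_mul_of_nonneg_right h2 (Nat.cast_nonneg _))
    have h4 : c1 * Real.exp E = 1 := by rw [hc1, ← Real.exp_add]; simp
    calc c1 * (T : ℝ) ≤ c1 * (Real.exp E * ((G b).card : ℝ)) := mul_le_mul_of_nonneg_left h3 hc10.le
      _ = ((G b).card : ℝ) := by rw [← mul_assoc, h4, one_mul]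
  have hBs : B ⊆ range Q0 := Finset.filter_subset _ _
  have hW := Fin_map Q0 0 T B G (c1 * T) hQ hBs (fun b _ => Finset.filter_subset _ _) hGc
  set W : Finset ℕ := (B.sigma G).image (fun p => 0 + 1 + p.1 + Q0 * p.2) with hWdef
  have hQT : ((Q0 * T : ℕ) : ℝ) ≤ x := by
    have := Nat.floor_le (show 0 ≤ x / (Q0 : ℝ) by positivity)
    rw [le_div_iff₀ hQr] at this
    push_cast
    linarith
  have hQT' : Q0 * T ≤ ⌊x⌋₊ := Nat.le_floor hQT
  have hTl : x - Q0 ≤ (Q0 : ℝ) * T := by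
    have := Nat.lt_floor_add_one (x / (Q0 : ℝ))
    rw [div_lt_iff₀ hQr] at this
    have h2 : (⌊x / (Q0 : ℝ)⌋₊ : ℝ) = T := rfl
    rw [h2] at this
    exact Gn8 this
  have hsub : W ⊆ ((Icc 1 ⌊x⌋₊).filter (fun n : ℕ => ∀ k ∈ P,
        ¬ (n + k).Prime ∧ ∃ p : ℕ, p.Prime ∧ (p : ℝ) ≤ x ^ r ∧ p ∣ n + k)) ∪
        range (⌊x ^ (1 / 2 : ℝ)⌋₊ + 1) := by
    intro n hn
    obtain ⟨⟨b, t⟩, hbt, e⟩ := Finset.mem_image.1 hn
    have e' : 0 + 1 + b + Q0 * t = n := e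
    rw [Finset.mem_sigma] at hbt
    have hb : b ∈ B := hbt.1
    have ht : t ∈ G b := hbt.2
    have hbq := Finset.mem_range.1 (hBs hb)
    have ht1 := Finset.mem_range.1 (Finset.mem_filter.1 ht).1
    have ht2 := (Finset.mem_filter.1 ht).2
    have key : ∀ k ∈ P, ∃ p : ℕ, p.Prime ∧ (p : ℝ) ≤ x ^ r1 ∧ p ∣ n + k := by
      intro k hk
      have ek : Q0 * t + (0 + 1 + b + k) = n + k := by omega
      by_cases hco : Nat.Coprime (0 + 1 + b + k) Q0
      · have hmem : k ∈ S b := Finset.mem_filter.2 ⟨hk, hco⟩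
        obtain ⟨p, hp, hpr, hd⟩ := ht2 k hmem
        rw [ek] at hd
        exact ⟨p, hp, hpr, hd⟩
      · obtain ⟨p, hp, hd1, hd2⟩ := Nat.Prime.not_coprime_iff_dvd.1 hco
        refine ⟨p, hp, ?_, ?_⟩
        · have : p ≤ z0 := hp.dvd_primorial_iff.1 hd2
          have h' : (p : ℝ) ≤ z0 := by exact_mod_cast this
          exact h'.trans hzr
        · rw [← ek]
          exact dvd_add (hd2.mul_right t) hd1
    by_cases hnx : n < ⌊x ^ (1 / 2 : ℝ)⌋₊ + 1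
    · exact Finset.mem_union_right _ (Finset.mem_range.2 hnx)
    · refine Finset.mem_union_left _ (Finset.mem_filter.2 ⟨?_, ?_⟩)
      · rw [Finset.mem_Icc]
        have h1 : Q0 * (t + 1) ≤ Q0 * T := Nat.mul_le_mul_left _ ht1
        have h2 : Q0 * (t + 1) = Q0 * t + Q0 := by ring
        omega
      · intro k hk
        obtain ⟨p, hp, hpr, hd⟩ := key k hk
        refine ⟨?_, p, hp, ?_, hd⟩
        · intro hkp
          have hpk : p = n + k := (Nat.prime_dvd_prime_iff_eq hp hkp).1 hd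
          have h1 : ((n + k : ℕ) : ℝ) ≤ x ^ (1 / 2 : ℝ) := by
            rw [← hpk]
            exact hpr.trans (Real.rpow_le_rpow_of_exponent_le h1x hr1h)
          have h2 : n + k ≤ ⌊x ^ (1 / 2 : ℝ)⌋₊ := Nat.le_floor h1
          omega
        · exact hpr.trans (Real.rpow_le_rpow_of_exponent_le h1x hr1r)
  have hcard := (Finset.card_le_card hsub).trans (Finset.card_union_le _ _)
  rw [Finset.card_range] at hcard
  have hcard' : (W.card : ℝ) ≤ (((Icc 1 ⌊x⌋₊).filter (fun n : ℕ => ∀ k ∈ P,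
        ¬ (n + k).Prime ∧ ∃ p : ℕ, p.Prime ∧ (p : ℝ) ≤ x ^ r ∧ p ∣ n + k)).card : ℝ) +
        ((⌊x ^ (1 / 2 : ℝ)⌋₊ : ℝ) + 1) := by exact_mod_cast hcard
  have hfl : (⌊x ^ (1 / 2 : ℝ)⌋₊ : ℝ) ≤ x ^ (1 / 2 : ℝ) := Nat.floor_le (by positivity)
  have hlow : c1 / 4 * x ≤ (B.card : ℝ) * (c1 * T) := by
    have h1 : x / 2 ≤ (Q0 : ℝ) * T := by linarith
    have h2 : (Q0 : ℝ) / 2 * (c1 * T) ≤ (B.card : ℝ) * (c1 * T) :=
      mul_le_mul_of_nonneg_right hBc (by positivity)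
    exact Gn9 hc10.le h1 h2
  have hE1 : E ≤ H ^ (1 / 2 : ℝ) := by rw [hE]; exact hEH
  have hc1x : Real.exp (-(H ^ (1 / 2 : ℝ))) / 8 * x ≤ c1 / 8 * x := by
    have : Real.exp (-(H ^ (1 / 2 : ℝ))) ≤ c1 := by
      rw [hc1]
      exact Real.exp_le_exp.2 (by linarith)
    refine mul_le_mul_of_nonneg_right (by linarith) hx0.le
  have hE2 : 1 ≤ E := by rw [hE]; exact Real.one_le_exp (by positivity)
  have hfin : x * Real.exp (-Real.exp ((C2 + 2) * lam)) ≤ c1 / 8 * x := by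
    have h1 : Real.exp ((C2 + 2) * lam) = E * Real.exp (2 * lam) := by
      rw [hE, ← Real.exp_add]
      congr 1
      ring
    have h2 : 7 ≤ Real.exp (2 * lam) := Gn11 lam hlam
    have h3 : E + 3 ≤ Real.exp ((C2 + 2) * lam) := by
      rw [h1]
      exact Gn10 hE2 h2
    have h4 : (8 : ℝ) ≤ Real.exp 3 := by
      have h5 : (Real.exp 1) ^ 3 = Real.exp 3 := by rw [← Real.exp_nat_mul]; norm_num
      rw [← h5]
      have := Real.exp_one_gt_d9
      calc (8 : ℝ) ≤ 2 ^ 3 := by norm_num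
        _ ≤ (Real.exp 1) ^ 3 := pow_le_pow_left₀ (by norm_num) (by linarith) 3
    have h7 : Real.exp (-Real.exp ((C2 + 2) * lam)) ≤ c1 / 8 := by
      calc Real.exp (-Real.exp ((C2 + 2) * lam)) ≤ Real.exp (-E + -3) := Real.exp_le_exp.2 (by linarith)
        _ = c1 * (Real.exp 3)⁻¹ := by rw [Real.exp_add, ← hc1, Real.exp_neg 3]
        _ ≤ c1 * (8 : ℝ)⁻¹ := mul_le_mul_of_nonneg_left (inv_anti₀ (by norm_num) h4) hc10.le
        _ = c1 / 8 := by ring
    calc x * Real.exp (-Real.exp ((C2 + 2) * lam)) ≤ x * (c1 / 8) := mul_le_mul_of_nonneg_left h7 hx0.le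
      _ = c1 / 8 * x := by ring
  linarith

end H52GS
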